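import Pool.Agent.Q291.MK.Stm4
import Pool.Agent.Q291.MK.Base

/-! # Project MK (helper291), job MG: decay of the non-constant part -/

set_option autoImplicit false

namespace Q54.MK

open Pool.Agent.Q291.MK Filter Topology
open Pool.Agent.Q146.MK (W_pois_ge mean_nonneg' pois_zero_lt)

theorem zero_le_mean {a : ℕ → ℝ} (ha : AM a) : 1 - a 0 ≤ mean a := by
  have h := ha.toLaw.one.summable.sum_add_tsum_nat_add 1
  rw [ha.toLaw.one.tsum_eq] at h
  have h2 : ∑' k, a (k + 1) ≤ mean a := by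
    have hm : Summable fun k : ℕ => a k * (k : ℝ) := by simpa using ha.mom 1
    have h3 : mean a = ∑' k, a (k + 1) * ((k + 1 : ℕ) : ℝ) := by
      unfold mean E
      rw [hm.tsum_eq_zero_add]
      simp
    rw [h3]
    refine Summable.tsum_le_tsum (fun k => ?_)
      ((summable_nat_add_iff 1).mpr ha.toLaw.one.summable)
      ((summable_nat_add_iff 1).mpr hm)
    have h4 := ha.nn (k + 1)
    have h5 : (1 : ℝ) ≤ ((k + 1 : ℕ) : ℝ) := by
      push_cast
      linarith [(Nat.cast_nonneg k : (0 : ℝ) ≤ k)]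
    nlinarith
  simp only [Finset.range_one, Finset.sum_singleton] at h
  linarith

theorem decay {a : ℕ → ℝ} (ha : AM a) (h0 : a 0 < 1) {n0 : ℕ} (h : mean (R^[n0] a) ≤ 1 / 2)
    (n : ℕ) : 1 - (R^[n] a) 0 ≤ 2 * Real.exp (-(Real.log 2 / 4 ^ n0) * 4 ^ n) := by
  obtain ⟨sAM, -⟩ := bST a ha h0
  have hd : ∀ i : ℕ, mean (R^[n0 + i] a) ≤ (1 / 2) ^ (4 ^ i) := by
    intro i
    induction i with
    | zero => simpa using h
    | succ i ih =>
      have h1 := (bRB _ (sAM (n0 + i))).2.2.1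
      have h2 := mean_nonneg' (sAM (n0 + i)).toLaw
      rw [← add_assoc, Function.iterate_succ_apply' R]
      have h3 : mean (R^[n0 + i] a) ^ 4 ≤ ((1 / 2) ^ (4 ^ i)) ^ 4 := pow_le_pow_left₀ h2 ih 4
      have h4 : 0 ≤ mean (R^[n0 + i] a) ^ 4 := by positivity
      calc _ ≤ 32 / 125 * mean (R^[n0 + i] a) ^ 4 := h1
        _ ≤ mean (R^[n0 + i] a) ^ 4 := by linarith
        _ ≤ _ := h3
        _ = _ := by rw [← pow_mul, pow_succ]
  have hl : 0 < Real.log 2 := Real.log_pos (by norm_num)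
  have h4 : (0 : ℝ) < 4 ^ n0 := by positivity
  rcases le_total n0 n with hn | hn
  · obtain ⟨i, rfl⟩ := Nat.exists_eq_add_of_le hn
    have h1 := (zero_le_mean (sAM (n0 + i))).trans (hd i)
    have h2 : -(Real.log 2 / 4 ^ n0) * 4 ^ (n0 + i) = (4 ^ i : ℕ) * (-Real.log 2) := by
      rw [pow_add]
      push_cast
      field_simp
    have h3 : Real.exp (-(Real.log 2 / 4 ^ n0) * 4 ^ (n0 + i)) = (1 / 2) ^ (4 ^ i) := by
      rw [h2, Real.exp_nat_mul, Real.exp_neg, Real.exp_log (by norm_num), one_div]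
    rw [h3]
    have h5 : (0 : ℝ) ≤ (1 / 2) ^ (4 ^ i) := by positivity
    linarith
  · have h1 : 1 - (R^[n] a) 0 ≤ 1 := by
      have := (sAM n).nn 0
      linarith
    refine h1.trans ?_
    have h2 : Real.log 2 / 4 ^ n0 * 4 ^ n ≤ Real.log 2 := by
      rw [div_mul_eq_mul_div, div_le_iff₀ h4]
      exact mul_le_mul_of_nonneg_left (pow_le_pow_right₀ (by norm_num) hn) hl.le
    have h3 : Real.exp (-Real.log 2) ≤ Real.exp (-(Real.log 2 / 4 ^ n0) * 4 ^ n) :=
      Real.exp_le_exp.mpr (by linarith)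
    rw [Real.exp_neg, Real.exp_log (by norm_num)] at h3
    linarith

/-- JOB MG -/
theorem t_MG : P_MG := by
  refine ⟨fun a ha h0 => ?_, ?_⟩
  · obtain ⟨-, -, -, -, -, stend, -⟩ := bST a ha h0
    obtain ⟨n0, hn0⟩ := (stend.eventually_lt_const (show (0:ℝ) < 1 / 2 by norm_num)).exists
    refine ⟨2, Real.log 2 / 4 ^ n0, by norm_num, div_pos (Real.log_pos (by norm_num))
      (by positivity), fun n => decay ha h0 hn0.le n⟩
  obtain ⟨C3, C8, M, D, Q, hC3, hC8, hD, hMD, hQ, horb⟩ := bORB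
  have hM10 : 10 ≤ M := by linarith
  obtain ⟨Q1, hQ1⟩ : ∃ Q1, Q1 = Q + M ^ 2 + M := ⟨_, rfl⟩
  have hQ1one : 1 ≤ Q1 := by nlinarith
  obtain ⟨N0, hN0⟩ : ∃ N0 : ℕ, 24 * Q1 * M ≤ N0 := exists_nat_ge _
  have hl2 : 0 < Real.log 2 := Real.log_pos (by norm_num)
  have hl2' : Real.log 2 < 1 := by have := Real.log_two_lt_d9; linarith
  have hlog16 : 0 < Real.log 16 := Real.log_pos (by norm_num)
  have hlog16' : Real.log 16 = 4 * Real.log 2 := by
    rw [show (16:ℝ) = 2 ^ 4 by norm_num, Real.log_pow]; push_cast; ring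
  refine ⟨4, Real.log 2 / (Real.log 16 * 4 ^ N0), by norm_num, by positivity,
    fun β σ hβ hσ => ?_⟩
  have hm : 0 < 2 * β := by linarith
  obtain ⟨pAM, pm, -, -, -, -⟩ := bPOIS (2 * β) hm.le
  have p0 : pois (2 * β) 0 < 1 := pois_zero_lt hm
  have itS : ∀ n, R^[n + 1] (pois (2 * β)) = R (R^[n] (pois (2 * β))) :=
    fun n => Function.iterate_succ_apply' R n _
  obtain ⟨sAM, s0, smono, sq, sW, stend, -, σ', hσ'p, hσ't, hσ'le, hσ'ge⟩ := bST _ pAM p0
  have hσσ : σ = σ' := tendsto_nhds_unique hσ hσ't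
  subst hσσ
  have hex : ∃ n, mean (R^[n] (pois (2 * β))) < M :=
    (stend.eventually_lt_const (show (0:ℝ) < M by linarith)).exists
  classical
  obtain ⟨n1, hn1, hmin⟩ : ∃ n1, mean (R^[n1] (pois (2 * β))) < M ∧
      ∀ k < n1, ¬ mean (R^[k] (pois (2 * β))) < M :=
    ⟨Nat.find hex, Nat.find_spec hex, fun k hk => Nat.find_min hex hk⟩
  have hnn := mean_nonneg' (sAM n1).toLaw
  have hW16 : 1 / 16 ≤ W (R^[n1] (pois (2 * β))) := by
    rcases Nat.eq_zero_or_pos n1 with h | h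
    · subst h
      exact W_pois_ge (by linarith) pAM
    · obtain ⟨k, rfl⟩ : ∃ k, n1 = k + 1 := ⟨n1 - 1, by omega⟩
      have hk := hmin k (by omega)
      push Not at hk
      have h1 := ((horb (2 * β) hm k).1 hk).2.1
      have h2 : D / mean (R^[k] (pois (2 * β))) ≤ 1 / 2 := by
        rw [div_le_div_iff₀ (by linarith) (by norm_num)]
        linarith
      have h3 : 1 / 2 ≤ W (R^[k] (pois (2 * β))) := by linarith
      have h4 := (bRB _ (sAM k)).2.2.2.2.1
      rw [← itS] at h4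
      have h5 : (1 / 2 : ℝ) ^ 4 ≤ W (R^[k] (pois (2 * β))) ^ 4 :=
        pow_le_pow_left₀ (by norm_num) h3 4
      have h6 : (1 / 2 : ℝ) ^ 4 = 1 / 16 := by norm_num
      rw [h6] at h5
      exact h5.trans h4
  have h4n : (0:ℝ) < 4 ^ n1 := by positivity
  have hup : σ ≤ Real.log 16 / 4 ^ n1 := by
    have h1 := hσ'le n1
    have h2 : -Real.log (W (R^[n1] (pois (2 * β)))) ≤ Real.log 16 := by
      have h3 := Real.log_le_log (by norm_num) hW16
      rw [one_div, Real.log_inv] at h3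
      linarith
    exact h1.trans (div_le_div_of_nonneg_right h2 h4n.le)
  have hhalf : mean (R^[N0 + n1] (pois (2 * β))) ≤ 1 / 2 := by
    obtain ⟨-, -, -, -, -, -, thalf, -⟩ := bST _ (sAM n1) (s0 n1)
    have hq := (horb (2 * β) hm n1).2 hn1
    have h1 := thalf Q1 hQ1one (by nlinarith) N0 (by
      refine le_trans ?_ hN0
      exact mul_le_mul_of_nonneg_left hn1.le (by linarith))
    rwa [← Function.iterate_add_apply] at h1
  refine ⟨?_, fun n => ?_⟩
  · refine hup.trans ?_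
    rw [div_le_iff₀ h4n, hlog16']
    have : (1 : ℝ) ≤ 4 ^ n1 := one_le_pow₀ (by norm_num)
    linarith
  · have h1 := decay pAM p0 hhalf n
    refine h1.trans ?_
    have h2 : Real.log 2 / (Real.log 16 * 4 ^ N0) * σ ≤ Real.log 2 / 4 ^ (N0 + n1) := by
      calc Real.log 2 / (Real.log 16 * 4 ^ N0) * σ
          ≤ Real.log 2 / (Real.log 16 * 4 ^ N0) * (Real.log 16 / 4 ^ n1) :=
            mul_le_mul_of_nonneg_left hup (by positivity)
        _ = _ := by
            rw [pow_add]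
            field_simp
    have h3 : Real.exp (-(Real.log 2 / 4 ^ (N0 + n1)) * 4 ^ n) ≤
        Real.exp (-(Real.log 2 / (Real.log 16 * 4 ^ N0)) * σ * 4 ^ n) := by
      refine Real.exp_le_exp.mpr ?_
      have h5 : (0 : ℝ) < 4 ^ n := by positivity
      have := mul_le_mul_of_nonneg_right h2 h5.le
      linarith
    have h6 := Real.exp_pos (-(Real.log 2 / (Real.log 16 * 4 ^ N0)) * σ * 4 ^ n)
    linarith

end Q54.MK
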