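import Pool.Agent.Q291.MK.Stm3
import Pool.Agent.Q222.MK.SLAW
import Pool.Agent.Q210.MK.POIS

/-! # Project MK (helper291), job TWS: twelfth central moment of the square and of the Poisson law -/

set_option autoImplicit false

namespace Q54.MK

open Pool.Agent.Q291.MK

theorem oddpair {x y : ℝ} {p q : ℕ} (hp : Odd p) (hq : Odd q) :
    0 ≤ (x ^ p - y ^ p) * (x ^ q - y ^ q) := by
  rcases le_total x y with h | h
  · have h1 := (hp.strictMono_pow (R := ℝ)).monotone h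
    have h2 := (hq.strictMono_pow (R := ℝ)).monotone h
    exact mul_nonneg_of_nonpos_of_nonpos (sub_nonpos.mpr h1) (sub_nonpos.mpr h2)
  · have h1 := (hp.strictMono_pow (R := ℝ)).monotone h
    have h2 := (hq.strictMono_pow (R := ℝ)).monotone h
    exact mul_nonneg (sub_nonneg.mpr h1) (sub_nonneg.mpr h2)

theorem poly12 (x y : ℝ) : (x + y) ^ 12 ≤ x ^ 12 + y ^ 12 + 12 * (x ^ 11 * y + x * y ^ 11) +
    2048 * (x ^ 10 * y ^ 2 + x ^ 2 * y ^ 10) := by
  have h1 : (x + y) ^ 12 = x ^ 12 + y ^ 12 + 12 * (x ^ 11 * y + x * y ^ 11) +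
    x ^ 2 * y ^ 2 * (66 * (x ^ 8 + y ^ 8) + 220 * (x ^ 7 * y + x * y ^ 7) +
      495 * (x ^ 6 * y ^ 2 + x ^ 2 * y ^ 6) + 792 * (x ^ 5 * y ^ 3 + x ^ 3 * y ^ 5) +
      924 * (x ^ 4 * y ^ 4)) := by ring
  have h2 : x ^ 7 * y + x * y ^ 7 ≤ x ^ 8 + y ^ 8 := by
    have := oddpair (x := x) (y := y) (p := 7) (q := 1) (by decide) (by decide)
    nlinarith [this]
  have h3 : x ^ 5 * y ^ 3 + x ^ 3 * y ^ 5 ≤ x ^ 8 + y ^ 8 := by
    have := oddpair (x := x) (y := y) (p := 5) (q := 3) (by decide) (by decide)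
    nlinarith [this]
  have h4 : x ^ 6 * y ^ 2 + x ^ 2 * y ^ 6 ≤ x ^ 8 + y ^ 8 := by
    have := oddpair (x := x ^ 2) (y := y ^ 2) (p := 3) (q := 1) (by decide) (by decide)
    nlinarith [this]
  have h5 : 2 * (x ^ 4 * y ^ 4) ≤ x ^ 8 + y ^ 8 := by
    nlinarith [sq_nonneg (x ^ 4 - y ^ 4)]
  have h6 : 66 * (x ^ 8 + y ^ 8) + 220 * (x ^ 7 * y + x * y ^ 7) +
      495 * (x ^ 6 * y ^ 2 + x ^ 2 * y ^ 6) + 792 * (x ^ 5 * y ^ 3 + x ^ 3 * y ^ 5) +
      924 * (x ^ 4 * y ^ 4) ≤ 2048 * (x ^ 8 + y ^ 8) := by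
    have h0 : 0 ≤ x ^ 8 + y ^ 8 := by positivity
    linarith
  have h7 := mul_le_mul_of_nonneg_left h6 (show 0 ≤ x ^ 2 * y ^ 2 by positivity)
  rw [h1]
  linarith [h7, show x ^ 2 * y ^ 2 * (2048 * (x ^ 8 + y ^ 8)) =
    2048 * (x ^ 10 * y ^ 2 + x ^ 2 * y ^ 10) by ring]

theorem amgm10 {μ x : ℝ} (hμ : 0 ≤ μ) : μ * x ^ 10 ≤ x ^ 12 / 4096 + 4096 ^ 5 * μ ^ 6 := by
  have e : ∀ t : ℝ, 0 ≤ t → μ * t ^ 5 ≤ t ^ 6 / 4096 + 4096 ^ 5 * μ ^ 6 := by
    intro t ht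
    rcases le_total (4096 * μ) t with h | h
    · have h1 : 4096 * μ * t ^ 5 ≤ t * t ^ 5 := mul_le_mul_of_nonneg_right h (by positivity)
      have h2 : 0 ≤ (4096 : ℝ) ^ 5 * μ ^ 6 := by positivity
      have h3 : μ * t ^ 5 ≤ t ^ 6 / 4096 := by
        rw [le_div_iff₀ (by norm_num)]
        linarith [show μ * t ^ 5 * 4096 = 4096 * μ * t ^ 5 by ring, show t * t ^ 5 = t ^ 6 by ring]
      linarith
    · have h1 : t ^ 5 ≤ (4096 * μ) ^ 5 := pow_le_pow_left₀ ht h 5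
      have h2 : μ * t ^ 5 ≤ μ * (4096 * μ) ^ 5 := mul_le_mul_of_nonneg_left h1 hμ
      have h3 : 0 ≤ t ^ 6 / 4096 := by positivity
      have h4 : μ * (4096 * μ) ^ 5 = 4096 ^ 5 * μ ^ 6 := by ring
      linarith
  have := e (x ^ 2) (by positivity)
  calc μ * x ^ 10 = μ * (x ^ 2) ^ 5 := by ring
    _ ≤ _ := this
    _ = _ := by ring

/-- central moments of the Poisson law -/
theorem pois_bd : ∀ n : ℕ, ∃ B : ℝ, 0 ≤ B ∧ ∀ m : ℝ, 1 ≤ m →
    |E (pois m) (fun k => ((k : ℝ) - m) ^ n)| ≤ B * m ^ (n / 2) := by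
  intro n
  induction n using Nat.strong_induction_on with
  | _ n ih =>
    rcases n with _ | n
    · refine ⟨1, zero_le_one, fun m hm => ?_⟩
      have ha := Pool.Agent.Q210.MK.pois_AM (m := m) (by linarith)
      simp only [pow_zero]
      rw [ha.toLaw.E_const]
      simp
    · choose! B hB using ih
      refine ⟨∑ i ∈ Finset.range n, (n.choose i : ℝ) * B i, Finset.sum_nonneg fun i hi =>
        mul_nonneg (Nat.cast_nonneg _) (hB i (by
          have := Finset.mem_range.mp hi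
          omega)).1, fun m hm => ?_⟩
      have hm0 : (0 : ℝ) ≤ m := by linarith
      rw [Pool.Agent.Q210.MK.c_rec hm0 n, abs_mul, abs_of_nonneg hm0]
      rcases Nat.eq_zero_or_pos n with h0 | h0
      · subst h0
        simp
      have h1 : |∑ i ∈ Finset.range n, (n.choose i : ℝ) *
          E (pois m) (fun k => ((k : ℝ) - m) ^ i)| ≤
          (∑ i ∈ Finset.range n, (n.choose i : ℝ) * B i) * m ^ ((n - 1) / 2) := by
        refine (Finset.abs_sum_le_sum_abs _ _).trans ?_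
        rw [Finset.sum_mul]
        refine Finset.sum_le_sum fun i hi => ?_
        have hi' := Finset.mem_range.mp hi
        have h2 := (hB i (by omega)).2 m hm
        have h3 : m ^ (i / 2) ≤ m ^ ((n - 1) / 2) := pow_le_pow_right₀ hm (by omega)
        have h4 := (hB i (by omega)).1
        rw [abs_mul, abs_of_nonneg (Nat.cast_nonneg (n.choose i) : (0 : ℝ) ≤ _), mul_assoc]
        refine mul_le_mul_of_nonneg_left (h2.trans ?_) (Nat.cast_nonneg _)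
        exact mul_le_mul_of_nonneg_left h3 h4
      calc m * |∑ i ∈ Finset.range n, (n.choose i : ℝ) *
            E (pois m) (fun k => ((k : ℝ) - m) ^ i)|
          ≤ m * ((∑ i ∈ Finset.range n, (n.choose i : ℝ) * B i) * m ^ ((n - 1) / 2)) :=
            mul_le_mul_of_nonneg_left h1 hm0
        _ = (∑ i ∈ Finset.range n, (n.choose i : ℝ) * B i) * m ^ ((n - 1) / 2 + 1) := by ring
        _ = _ := by
            congr 2
            omega

/-- JOB TWS -/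
theorem t_TWS : P_TWS := by
  obtain ⟨B, hB0, hB⟩ := pois_bd 12
  refine ⟨B + 4096 ^ 6, by linarith [show (1 : ℝ) ≤ 4096 ^ 6 by norm_num], fun m hm => ?_, ?_⟩
  · have hP := Pool.Agent.Q210.MK.t_POIS m (by linarith)
    unfold m12
    rw [hP.2.1]
    have h1 := hB m hm
    have h2 : (12 / 2 : ℕ) = 6 := rfl
    rw [h2] at h1
    have h3 := (le_abs_self _).trans h1
    have h4 : 0 ≤ (4096 : ℝ) ^ 6 * m ^ 6 := by positivity
    linarith [show (B + 4096 ^ 6) * m ^ 6 = B * m ^ 6 + 4096 ^ 6 * m ^ 6 by ring]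
  intro C12 hC12 C3 C8 a ha hm
  have hA := ha.toAM
  obtain ⟨-, h1⟩ := Pool.Agent.Q222.MK.t_SLAW_only a hA
  set μ := mean a with hμ
  have hx : PB (fun k => (k : ℝ) - μ) := PB.id.sub (PB.const μ)
  have hEx : E a (fun k => (k : ℝ) - μ) = 0 := by
    rw [hA.E_sub PB.id (PB.const μ), hA.toLaw.E_const]
    exact sub_self _
  have hmS : mean (S a) = 2 * μ := Pool.Agent.Q222.MK.mean_S hA
  have h12 : m12 (S a) = E2 a (fun K L => (((K : ℝ) - μ) + ((L : ℝ) - μ)) ^ 12) := by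
    unfold m12
    have hP : PB (fun k => ((k : ℝ) - mean (S a)) ^ 12) := (PB.id.sub (PB.const _)).pow 12
    rw [(h1 _ hP).2, hmS]
    congr 1
    funext K L
    push_cast
    ring
  have hx12 : E a (fun k => ((k : ℝ) - μ) ^ 12) = m12 a := rfl
  have hx2 : E a (fun k => ((k : ℝ) - μ) ^ 2) = vr a := rfl
  have hx10 : μ * E a (fun k => ((k : ℝ) - μ) ^ 10) ≤ m12 a / 4096 + 4096 ^ 5 * μ ^ 6 := by
    have e1 : E a (fun k => μ * ((k : ℝ) - μ) ^ 10) = μ * E a (fun k => ((k : ℝ) - μ) ^ 10) :=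
      E_const_mul _ _
    have e2 : E a (fun k => (1 / 4096) * ((k : ℝ) - μ) ^ 12 + 4096 ^ 5 * μ ^ 6) =
        m12 a / 4096 + 4096 ^ 5 * μ ^ 6 := by
      rw [hA.E_add ((PB.const (1/4096)).mul (hx.pow 12)) (PB.const _), E_const_mul,
        hA.toLaw.E_const, hx12]
      ring
    rw [← e1, ← e2]
    refine hA.E_mono ((PB.const μ).mul (hx.pow 10))
      (((PB.const (1/4096)).mul (hx.pow 12)).add (PB.const _)) fun k => ?_
    have := amgm10 (μ := μ) (x := (k : ℝ) - μ) (by linarith)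
    linarith
  have hE10 : 0 ≤ E a (fun k => ((k : ℝ) - μ) ^ 10) := by
    have := hA.E_mono (PB.const 0) (hx.pow 10) (fun k => by positivity)
    rwa [hA.toLaw.E_const] at this
  have hvr : vr a ≤ μ := ha.vr_le
  have hle : m12 (S a) ≤ E2 a (fun K L => (((K : ℝ) - μ) ^ 12 + ((L : ℝ) - μ) ^ 12) +
      (12 * (((K : ℝ) - μ) ^ 11 * ((L : ℝ) - μ) + ((K : ℝ) - μ) * ((L : ℝ) - μ) ^ 11) +
      2048 * (((K : ℝ) - μ) ^ 10 * ((L : ℝ) - μ) ^ 2 +
        ((K : ℝ) - μ) ^ 2 * ((L : ℝ) - μ) ^ 10))) := by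
    rw [h12]
    refine hA.E2_mono (((PB2.fst hx).add (PB2.snd hx)).pow 12) ?_ fun K L => ?_
    · exact ((PB2.fst (hx.pow 12)).add (PB2.snd (hx.pow 12))).add
        (((PB2.const 12).mul (((PB2.fst (hx.pow 11)).mul (PB2.snd hx)).add
          ((PB2.fst hx).mul (PB2.snd (hx.pow 11))))).add
        ((PB2.const 2048).mul (((PB2.fst (hx.pow 10)).mul (PB2.snd (hx.pow 2))).add
          ((PB2.fst (hx.pow 2)).mul (PB2.snd (hx.pow 10))))))
    · have := poly12 ((K : ℝ) - μ) ((L : ℝ) - μ)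
      linarith
  have hval : E2 a (fun K L => (((K : ℝ) - μ) ^ 12 + ((L : ℝ) - μ) ^ 12) +
      (12 * (((K : ℝ) - μ) ^ 11 * ((L : ℝ) - μ) + ((K : ℝ) - μ) * ((L : ℝ) - μ) ^ 11) +
      2048 * (((K : ℝ) - μ) ^ 10 * ((L : ℝ) - μ) ^ 2 +
        ((K : ℝ) - μ) ^ 2 * ((L : ℝ) - μ) ^ 10))) =
      2 * m12 a + 4096 * (E a (fun k => ((k : ℝ) - μ) ^ 10) * vr a) := by
    have p12 := hx.pow 12
    have p11 := hx.pow 11
    have p10 := hx.pow 10
    have p2 := hx.pow 2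
    rw [hA.E2_add ((PB2.fst p12).add (PB2.snd p12))
        (((PB2.const 12).mul (((PB2.fst p11).mul (PB2.snd hx)).add
          ((PB2.fst hx).mul (PB2.snd p11)))).add
        ((PB2.const 2048).mul (((PB2.fst p10).mul (PB2.snd p2)).add
          ((PB2.fst p2).mul (PB2.snd p10))))),
      hA.E2_add (PB2.fst p12) (PB2.snd p12), hA.E2_fst p12, hA.E2_snd p12,
      hA.E2_add ((PB2.const 12).mul (((PB2.fst p11).mul (PB2.snd hx)).add
          ((PB2.fst hx).mul (PB2.snd p11))))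
        ((PB2.const 2048).mul (((PB2.fst p10).mul (PB2.snd p2)).add
          ((PB2.fst p2).mul (PB2.snd p10)))),
      E2_const_mul, E2_const_mul,
      hA.E2_add ((PB2.fst p11).mul (PB2.snd hx)) ((PB2.fst hx).mul (PB2.snd p11)),
      hA.E2_add ((PB2.fst p10).mul (PB2.snd p2)) ((PB2.fst p2).mul (PB2.snd p10)),
      hA.E2_mul p11 hx, hA.E2_mul hx p11, hA.E2_mul p10 p2, hA.E2_mul p2 p10, hEx, hx12, hx2]
    ring
  rw [hval] at hle
  have h9 : E a (fun k => ((k : ℝ) - μ) ^ 10) * vr a ≤ m12 a / 4096 + 4096 ^ 5 * μ ^ 6 := by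
    calc E a (fun k => ((k : ℝ) - μ) ^ 10) * vr a ≤ E a (fun k => ((k : ℝ) - μ) ^ 10) * μ :=
          mul_le_mul_of_nonneg_left hvr hE10
      _ = μ * E a (fun k => ((k : ℝ) - μ) ^ 10) := mul_comm _ _
      _ ≤ _ := hx10
  have h10 : m12 a ≤ C12 * μ ^ 6 := ha.m12_le
  have hμ6 : 0 ≤ μ ^ 6 := by positivity
  have hC0 : (4096 : ℝ) ^ 6 ≤ C12 := by linarith
  have h11 : (4096 : ℝ) ^ 6 * μ ^ 6 ≤ C12 * μ ^ 6 := mul_le_mul_of_nonneg_right hC0 hμ6
  have h13 : 0 ≤ C12 * μ ^ 6 := mul_nonneg (le_trans (by norm_num) hC0) hμ6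
  rw [hmS]
  calc m12 (S a) ≤ 2 * m12 a + 4096 * (m12 a / 4096 + 4096 ^ 5 * μ ^ 6) := by linarith
    _ = 3 * m12 a + 4096 ^ 6 * μ ^ 6 := by ring
    _ ≤ 4 * (C12 * μ ^ 6) := by linarith
    _ ≤ C12 * (2 * μ) ^ 6 := by
        have : C12 * (2 * μ) ^ 6 = 64 * (C12 * μ ^ 6) := by ring
        linarith

end Q54.MK
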